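import Pool.Agent.H705.RO.Stm

set_option autoImplicit false

namespace Pool.Agent.H322.RO

open Pool.Agent.H705.RO Filter Topology Finset

theorem bound_tendsto (K : ℝ) (k : ℕ) :
    Tendsto (fun J : ℕ => K * (2 : ℝ) ^ (-(pe 0 * J / 2)) * Real.sqrt ((J : ℝ) + k + 1)) atTop
      (𝓝 0) := by
  have hr0 : (0 : ℝ) ≤ (2 : ℝ) ^ (-(1 / 4) : ℝ) := by positivity
  have hr1 : (2 : ℝ) ^ (-(1 / 4) : ℝ) < 1 :=
    Real.rpow_lt_one_of_one_lt_of_neg (by norm_num) (by norm_num)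
  have h1 := tendsto_self_mul_const_pow_of_lt_one hr0 hr1
  have h2 := (tendsto_pow_atTop_nhds_zero_of_lt_one hr0 hr1).const_mul ((k : ℝ) + 1)
  have h3 : Tendsto (fun J : ℕ => ((2 : ℝ) ^ (-(1 / 4) : ℝ)) ^ J * Real.sqrt ((J : ℝ) + k + 1))
      atTop (𝓝 0) := by
    have h4 := h1.add h2
    rw [mul_zero, add_zero] at h4
    refine squeeze_zero (fun J => by positivity) (fun J => ?_) h4
    have h5 : Real.sqrt ((J : ℝ) + k + 1) ≤ (J : ℝ) + k + 1 := by
      rw [Real.sqrt_le_left (by positivity)]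
      have : (1 : ℝ) ≤ (J : ℝ) + k + 1 := by
        have : (0 : ℝ) ≤ (J : ℝ) + k := by positivity
        linarith
      nlinarith
    calc ((2 : ℝ) ^ (-(1 / 4) : ℝ)) ^ J * Real.sqrt ((J : ℝ) + k + 1)
        ≤ ((2 : ℝ) ^ (-(1 / 4) : ℝ)) ^ J * ((J : ℝ) + k + 1) :=
          mul_le_mul_of_nonneg_left h5 (by positivity)
      _ = (J : ℝ) * ((2 : ℝ) ^ (-(1 / 4) : ℝ)) ^ J +
          ((k : ℝ) + 1) * ((2 : ℝ) ^ (-(1 / 4) : ℝ)) ^ J := by ring
  have h6 := h3.const_mul K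
  rw [mul_zero] at h6
  refine h6.congr (fun J => ?_)
  rw [← Real.rpow_natCast ((2 : ℝ) ^ (-(1 / 4) : ℝ)) J, ← Real.rpow_mul (by norm_num)]
  have : (-(1 / 4) : ℝ) * (J : ℝ) = -(pe 0 * J / 2) := by
    unfold pe
    push_cast
    ring
  rw [this]
  ring

theorem T_CNV : P_CNV := by
  intro W hW hb
  have hsub : ∀ (M M' : ℕ) (t : ℝ), M ≤ M' →
      ∑ n ∈ Ico M M', W n t = part W M' t - part W M t := by
    intro M M' t h
    unfold part
    exact Finset.sum_Ico_eq_sub (fun n => W n t) h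
  have hpow : ∀ t : ℝ, ∃ k : ℕ, t < 2 ^ k := fun t =>
    pow_unbounded_of_one_lt t (by norm_num)
  obtain ⟨K, hK⟩ := hb 0
  have hlim : ∀ t : ℝ, 0 ≤ t → ∃ s : ℝ, Tendsto (fun N => part W N t) atTop (𝓝 s) := by
    intro t ht
    obtain ⟨k, hk⟩ := hpow t
    refine cauchySeq_tendsto_of_complete (Metric.cauchySeq_iff'.2 fun ε hε => ?_)
    obtain ⟨J, hJ⟩ := ((bound_tendsto K k).eventually (gt_mem_nhds hε)).exists
    refine ⟨2 ^ J, fun n hn => ?_⟩
    rw [Real.dist_eq, ← hsub _ _ t hn]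
    exact (hK J k t ht hk.le _ _ le_rfl hn).trans_lt hJ
  choose! S hS using hlim
  have hUT : UT W S := by
    intro m
    obtain ⟨Km, hKm⟩ := hb m
    refine ⟨Km, fun J k t ht htk M hM => ?_⟩
    have h1 : Tendsto (fun M' => |part W M' t - part W M t|) atTop (𝓝 |S t - part W M t|) :=
      ((hS t ht).sub_const _).abs
    refine le_of_tendsto h1 ((eventually_ge_atTop M).mono fun M' hM' => ?_)
    rw [← hsub _ _ t hM']
    exact hKm J k t ht htk M M' hM hM'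
  refine ⟨S, hS, ?_, hUT⟩
  obtain ⟨K', hK'⟩ := hUT 0
  intro t ht
  obtain ⟨k, hk⟩ := hpow t
  have hunif : TendstoUniformlyOn (fun (N : ℕ) (u : ℝ) => part W N u) S atTop
      (Set.Icc (0 : ℝ) (2 ^ k)) := by
    rw [Metric.tendstoUniformlyOn_iff]
    intro ε hε
    obtain ⟨J, hJ⟩ := ((bound_tendsto K' k).eventually (gt_mem_nhds hε)).exists
    refine (eventually_ge_atTop (2 ^ J)).mono fun M hM u hu => ?_
    rw [Real.dist_eq]
    exact (hK' J k u hu.1 hu.2 M hM).trans_lt hJ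
  have hcont : ContinuousOn S (Set.Icc (0 : ℝ) (2 ^ k)) := by
    refine hunif.continuousOn (Eventually.frequently (Eventually.of_forall fun N => ?_))
    exact (continuous_finsetSum _ fun n _ => hW n).continuousOn
  refine (hcont t ⟨ht, hk.le⟩).mono_of_mem_nhdsWithin ?_
  exact mem_nhdsWithin.2 ⟨Set.Iio (2 ^ k), isOpen_Iio, hk, fun x hx => ⟨hx.2, le_of_lt hx.1⟩⟩

end Pool.Agent.H322.RO
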